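import Pool.Agent.H72.AAP.All

/-!
# The algebraic independence measure for fixed tuples of logarithms at most heights

For every degree `d` all but a small proportion of the `n`-tuples of logarithms of positive integers
`a i ≤ x` satisfy the lower bound `H ^ (-C)` of the problem for all heights `H` outside a set of
small density, where density is measured along an arbitrary sequence of heights.  This holds even
relative to arbitrary complex numbers `ξ k 1, ..., ξ k r`, which may change with the height, and with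
any completely additive function `L` in place of the logarithm whose values at the primes are
`ℚ`-linearly independent logarithms of algebraic numbers.
-/

set_option autoImplicit false

namespace Pool.Agent.H72.Old.AlmostAllTuples

open MvPolynomial

/-- Some integer polynomial `P(X, Y)` in variables `X 1, ..., X r` and `Y 1, ..., Y n` of total
degree at most `d` with coefficients of absolute value at most `H` has absolute value below
`H ^ (-B)` at the point `(ξ, y)`, although the polynomial `P(ξ, Y)` in `Y 1, ..., Y n` has a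
coefficient of absolute value at least `H ^ (-A)`. -/
def Exceptional {r n : ℕ} (ξ : Fin r → ℂ) (d : ℕ) (H A B : ℝ) (y : Fin n → ℂ) : Prop :=
  ∃ P : MvPolynomial (Fin r ⊕ Fin n) ℤ, P.totalDegree ≤ d ∧
    (∀ e : Fin r ⊕ Fin n →₀ ℕ, |((coeff e P : ℤ) : ℝ)| ≤ H) ∧
    ‖aeval (Sum.elim ξ y) P‖ < H ^ (-B) ∧
    ∃ e : Fin n →₀ ℕ, H ^ (-A) ≤ ‖coeff e (aeval (Sum.elim (fun i => C (ξ i)) X) P)‖

theorem append_equiv {r n : ℕ} {α : Type} (u : Fin r → α) (v : Fin n → α) :
    Fin.append u v ∘ finSumFinEquiv = Sum.elim u v := by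
  funext i
  cases i with
  | inl i => simp
  | inr i => simp

theorem bad_of_exc {r n : ℕ} (ξ : Fin r → ℂ) (d : ℕ) (H A B : ℝ) (hH : 2 ≤ H) (y : Fin n → ℂ)
    (h : Exceptional ξ d H A B y) : Pool.Agent.H72.BF.badRN ξ d A B H y := by
  have hpos : ∀ C : ℝ, (0 : ℝ) < H ^ C := fun C => Real.rpow_pos_of_pos (by linarith) C
  obtain ⟨P, h1, h2, h3, e, h4⟩ := h
  refine ⟨rename finSumFinEquiv P, (totalDegree_rename_le _ _).trans h1, ?_, ?_, e, ?_⟩
  · intro m
    have h5 : m = (m.mapDomain finSumFinEquiv.symm).mapDomain finSumFinEquiv := by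
      rw [← Finsupp.mapDomain_comp]
      simp
    rw [h5, coeff_rename_mapDomain _ finSumFinEquiv.injective]
    exact h2 _
  · rw [aeval_rename, append_equiv]
    rw [Real.rpow_neg (by linarith), ← one_div, lt_div_iff₀ (hpos B), mul_comm] at h3
    exact h3
  · rw [aeval_rename, append_equiv]
    rw [Real.rpow_neg (by linarith), ← one_div, div_le_iff₀ (hpos A), mul_comm] at h4
    exact h4

/-- If a point is exceptional at a height `H` between `h` and `h ^ B`, it is exceptional at the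
height `h ^ B`, for another exponent. -/
theorem exc_up {r n : ℕ} (ξ : Fin r → ℂ) (d : ℕ) (h H A B C : ℝ) (hh : 2 ≤ h) (hH : h ≤ H)
    (hHB : H ≤ h ^ B) (hB : 1 ≤ B) (hC : 0 ≤ C) (y : Fin n → ℂ)
    (hE : Exceptional ξ d H A (C * B) y) : Exceptional ξ d (h ^ B) (max A 0) C y := by
  have hh0 : (0 : ℝ) ≤ h := by linarith
  have hh1 : (1 : ℝ) ≤ h := by linarith
  have hH0 : (0 : ℝ) < H := by linarith
  obtain ⟨P, h1, h2, h3, e, h4⟩ := hE
  refine ⟨P, h1, fun m => (h2 m).trans hHB, ?_, e, ?_⟩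
  · refine lt_of_lt_of_le h3 ?_
    have h5 : (h ^ B) ^ (-C) = h ^ (-(C * B)) := by
      rw [← Real.rpow_mul hh0]
      congr 1
      ring
    rw [h5]
    refine Real.rpow_le_rpow_of_nonpos (by linarith) hH ?_
    have : 0 ≤ C * B := mul_nonneg hC (by linarith)
    linarith
  · refine le_trans ?_ h4
    calc (h ^ B) ^ (-(max A 0)) ≤ H ^ (-(max A 0)) := by
          refine Real.rpow_le_rpow_of_nonpos hH0 hHB ?_
          have : 0 ≤ max A 0 := le_max_right _ _
          linarith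
      _ ≤ H ^ (-A) := by
          refine Real.rpow_le_rpow_of_exponent_le (by linarith) ?_
          have : A ≤ max A 0 := le_max_left _ _
          linarith

theorem le_up (h B : ℝ) (hh : 2 ≤ h) : h ≤ h ^ (max B 1) := by
  calc h = h ^ (1 : ℝ) := (Real.rpow_one _).symm
    _ ≤ h ^ (max B 1) := Real.rpow_le_rpow_of_exponent_le (by linarith) (le_max_right _ _)

/-- Exchange of objects and scales: if at every scale at most `ε |Ω|` objects are bad, then outside
of `δ |Ω|` objects every object is bad at most at `(ε / δ) K` of the first `K` scales, for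
infinitely many `K`. -/
theorem seq_gen {β : Type} (Ω : Finset β) (ε : ℝ) (hε : 0 ≤ ε) (E : β → ℕ → Prop)
    (hE : ∀ k, (Set.ncard {b : β | b ∈ Ω ∧ E b k} : ℝ) ≤ ε * Ω.card) (δ : ℝ) (hδ : 0 < δ) :
    ∃ G : Finset β, G ⊆ Ω ∧
      (1 - δ) * (Ω.card : ℝ) ≤ (G.card : ℝ) ∧ ∃ᶠ K : ℕ in Filter.atTop, ∀ b ∈ G,
        δ * (Set.ncard {k : ℕ | k < K ∧ E b k} : ℝ) ≤ ε * K := by
  classical
  have hfin : ∀ k, Set.Finite {b : β | b ∈ Ω ∧ E b k} := fun k =>
    Set.Finite.subset Ω.finite_toSet (fun a ha => ha.1)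
  rcases hε.eq_or_lt with h0 | hpos
  · refine ⟨Ω, Finset.Subset.refl _, ?_, Filter.Eventually.frequently ?_⟩
    · have : (0 : ℝ) ≤ δ * Ω.card := by positivity
      linarith
    · refine Filter.Eventually.of_forall fun K b hb => ?_
      have h1 : {k : ℕ | k < K ∧ E b k} = ∅ := by
        ext k
        simp only [Set.mem_setOf_eq, Set.mem_empty_iff_false, iff_false, not_and]
        intro _ hbk
        have h2 := hE k
        rw [← h0, zero_mul] at h2
        have h3 : Set.ncard {b : β | b ∈ Ω ∧ E b k} = 0 := by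
          have h4 : (Set.ncard {b : β | b ∈ Ω ∧ E b k} : ℝ) = 0 :=
            le_antisymm h2 (Nat.cast_nonneg _)
          exact_mod_cast h4
        rw [Set.ncard_eq_zero (hfin k)] at h3
        have h5 : b ∈ ({b : β | b ∈ Ω ∧ E b k} : Set β) := ⟨hb, hbk⟩
        rw [h3] at h5
        exact h5
      rw [h1, ← h0]
      simp
  · have hE2 : ∀ k, ((Ω.filter (fun b => E b k)).card : ℝ) ≤ ε / δ * (δ * (Ω.card : ℝ)) := by
      intro k
      rw [← mul_assoc, div_mul_cancel₀ _ hδ.ne']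
      refine le_trans ?_ (hE k)
      have h3 : ((Ω.filter (fun b => E b k) : Finset β) : Set β) ⊆ {b : β | b ∈ Ω ∧ E b k} := by
        intro a ha
        rw [Finset.mem_coe, Finset.mem_filter] at ha
        exact ha
      have h4 := Set.ncard_le_ncard h3 (hfin k)
      rw [Set.ncard_coe_finset] at h4
      exact_mod_cast h4
    obtain ⟨G, hG1, hG2, hG3⟩ := Pool.Agent.H72.AAP.exchange2 Ω E δ (ε / δ) (Ω.card : ℝ)
      (div_pos hpos hδ) hE2
    refine ⟨G, hG1, by linarith, ?_⟩
    refine hG3.mono ?_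
    intro K hK a ha
    have h5 := hK a ha
    have h6 : {k : ℕ | k < K ∧ E a k} = (((Finset.range K).filter (fun k => E a k) :
        Finset ℕ) : Set ℕ) := by
      ext k
      simp
    have h7 : Set.ncard {k : ℕ | k < K ∧ E a k} =
        ((Finset.range K).filter (fun k => E a k)).card := by
      rw [h6, Set.ncard_coe_finset]
    rw [← h7] at h5
    calc δ * (Set.ncard {k : ℕ | k < K ∧ E a k} : ℝ) ≤ δ * (ε / δ * K) :=
          mul_le_mul_of_nonneg_left h5 hδ.le
      _ = ε * K := by field_simp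

/-- the scales at which a tuple is exceptional -/
theorem seq_form {β : Type} {r n : ℕ} (d : ℕ) (Ω : Finset β) (z : β → Fin n → ℂ) (ε : ℝ)
    (hε : 0 ≤ ε) (A B C : ℝ) (hC : 0 < C) (h : ℕ → ℝ) (ξ : ℕ → Fin r → ℂ) (hh : ∀ k, 2 ≤ h k)
    (hmain : ∀ k, (Set.ncard {b : β | b ∈ Ω ∧
      Pool.Agent.H72.BF.badRN (ξ k) d (max A 0) C (h k ^ (max B 1)) (z b)} : ℝ) ≤
      ε * Ω.card) (δ : ℝ) (hδ : 0 < δ) : ∃ G : Finset β, G ⊆ Ω ∧
      (1 - δ) * (Ω.card : ℝ) ≤ (G.card : ℝ) ∧ ∃ᶠ K : ℕ in Filter.atTop, ∀ b ∈ G,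
        δ * (Set.ncard {k : ℕ | k < K ∧ ∃ H : ℝ, h k ≤ H ∧ H ≤ h k ^ B ∧
          Exceptional (ξ k) d H A (C * max B 1) (z b)} : ℝ) ≤ ε * K := by
  refine seq_gen Ω ε hε (fun b k => ∃ H : ℝ, h k ≤ H ∧ H ≤ h k ^ B ∧
    Exceptional (ξ k) d H A (C * max B 1) (z b)) (fun k => ?_) δ hδ
  have hk := hh k
  refine le_trans ?_ (hmain k)
  have hfin : Set.Finite {b : β | b ∈ Ω ∧
      Pool.Agent.H72.BF.badRN (ξ k) d (max A 0) C (h k ^ (max B 1)) (z b)} :=
    Set.Finite.subset Ω.finite_toSet (fun a ha => ha.1)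
  refine Nat.cast_le.2 (Set.ncard_le_ncard ?_ hfin)
  rintro a ⟨ha1, H, hH1, hH2, hexc⟩
  refine ⟨ha1, bad_of_exc _ _ _ _ _ (hk.trans (le_up _ B hk)) _ ?_⟩
  refine exc_up (ξ k) d (h k) H A (max B 1) C hk hH1 (hH2.trans ?_) (le_max_right _ _) hC.le _ hexc
  exact Real.rpow_le_rpow_of_exponent_le (by linarith) (le_max_left _ _)

/-- For all `r, n, d` there are `C₀` and `c` such that the following holds.  Let `L` be a completely
additive function whose values at the primes are `ℚ`-linearly independent logarithms of algebraic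
numbers (for instance the logarithm, see `log_additive` below), let `x ≥ 3` and
`ε = C₀ (log log x) ^ c / log x`.  For all `A, B` there is `C > 0` such that for
all real numbers `h k ≥ 2` and `ξ k` in `ℂ ^ r` with `|ξ k i| ≤ h k`, for `k ≥ 0`, and all `δ > 0`
there is a set `G` of at least `(1 - δ) x ^ n` tuples of positive integers `a i ≤ x` such that, for
infinitely many `K`, every `a` in `G` has the property that for all but at most `(ε / δ) K` of the
`k < K` the tuple `(L (a 1), ..., L (a n))` is not exceptional relative to `ξ k` at any height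
`H` with `h k ≤ H ≤ h k ^ B`. -/
theorem result (r n d : ℕ) : ∃ C₀ c : ℝ, 0 < C₀ ∧ 0 < c ∧
    ∀ L : ℕ → ℂ, (∀ a b : ℕ, a ≠ 0 → b ≠ 0 → L (a * b) = L a + L b) →
      LinearIndependent ℚ (fun p : Nat.Primes => L p) →
      (∀ p : ℕ, p.Prime → IsAlgebraic ℚ (Complex.exp (L p))) →
      ∀ x : ℕ, 3 ≤ x → ∀ A B : ℝ, ∃ C : ℝ, 0 < C ∧
      ∀ (h : ℕ → ℝ) (ξ : ℕ → Fin r → ℂ), (∀ k, 2 ≤ h k) → (∀ k i, ‖ξ k i‖ ≤ h k) →
      ∀ δ : ℝ, 0 < δ → ∃ G : Finset (Fin n → ℕ), (∀ a ∈ G, ∀ i, 1 ≤ a i ∧ a i ≤ x) ∧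
        (1 - δ) * (x : ℝ) ^ n ≤ (G.card : ℝ) ∧ ∃ᶠ K : ℕ in Filter.atTop, ∀ a ∈ G,
          δ * (Set.ncard {k : ℕ | k < K ∧ ∃ H : ℝ, h k ≤ H ∧ H ≤ h k ^ B ∧
            Exceptional (ξ k) d H A C (fun i => L (a i))} : ℝ) ≤
          C₀ * Real.log (Real.log x) ^ c / Real.log x * K := by
  classical
  obtain ⟨C₁, c, hC₁, hc, h1⟩ := Pool.Agent.H72.AAP.addAll r n d
  refine ⟨C₁, c, hC₁, hc, fun L hadd hind halg x hx A B => ?_⟩
  have hx3 : (3 : ℝ) ≤ (x : ℝ) := by exact_mod_cast hx
  have hx0 : (0 : ℝ) < (x : ℝ) := by linarith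
  have hlog1 : 1 < Real.log x := by
    rw [Real.lt_log_iff_exp_lt hx0]
    have := Real.exp_one_lt_d9
    linarith
  have hlog : 0 < Real.log x := by linarith
  have hll : 0 < Real.log (Real.log x) := Real.log_pos hlog1
  have hllc : 0 < Real.log (Real.log x) ^ c := Real.rpow_pos_of_pos hll _
  have hcard : ((Fintype.piFinset (fun _ : Fin n => Finset.Icc 1 x)).card : ℝ) =
      (x : ℝ) ^ n := by
    simp [Fintype.card_piFinset]
  obtain ⟨C, hC, h4⟩ := h1 L ⟨hadd, hind, halg⟩ x hx (max A 0)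
  refine ⟨C * max B 1, mul_pos hC (lt_max_of_lt_right one_pos), fun h ξ hh hξ δ hδ => ?_⟩
  obtain ⟨G, hG1, hG2, hG3⟩ := seq_form (r := r) d
    (Fintype.piFinset (fun _ : Fin n => Finset.Icc 1 x))
    (fun a i => L (a i)) (C₁ * Real.log (Real.log x) ^ c / Real.log x)
    (by positivity) A B C hC h ξ hh (fun k => by
      have h5 := h4 (h k ^ (max B 1)) ((hh k).trans (le_up _ B (hh k))) (ξ k)
        (fun i => (hξ k i).trans (le_up _ B (hh k)))
      rw [hcard]
      refine le_trans (le_of_eq ?_) h5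
      simp only [Fintype.mem_piFinset]) δ hδ
  rw [hcard] at hG2
  refine ⟨G, fun a ha i => ?_, hG2, hG3⟩
  have := hG1 ha
  rw [Fintype.mem_piFinset] at this
  exact Finset.mem_Icc.1 (this i)

/-- The logarithm satisfies the hypotheses of `result`. -/
theorem log_additive : (∀ a b : ℕ, a ≠ 0 → b ≠ 0 →
      ((Real.log (a * b : ℕ) : ℝ) : ℂ) = (Real.log a : ℝ) + (Real.log b : ℝ)) ∧
    LinearIndependent ℚ (fun p : Nat.Primes => ((Real.log (p : ℕ) : ℝ) : ℂ)) ∧
    (∀ p : ℕ, p.Prime → IsAlgebraic ℚ (Complex.exp ((Real.log p : ℝ) : ℂ))) := by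
  classical
  refine ⟨fun a b ha hb => ?_, ?_, fun p hp => ?_⟩
  · push_cast
    have ha' : (a : ℝ) ≠ 0 := by exact_mod_cast ha
    have hb' : (b : ℝ) ≠ 0 := by exact_mod_cast hb
    rw [Real.log_mul ha' hb']
    push_cast
    rfl
  · rw [← LinearIndependent.iff_fractionRing ℤ ℚ, linearIndependent_iff']
    intro s g hg i hi
    have h1 : ∑ p : s, (g p : ℝ) * Real.log ((p : Nat.Primes) : ℕ) = 0 := by
      have h2 : ((∑ p ∈ s, (g p : ℝ) * Real.log ((p : Nat.Primes) : ℕ) : ℝ) : ℂ) = 0 := by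
        rw [← hg]
        push_cast
        refine Finset.sum_congr rfl fun i _ => ?_
        rw [zsmul_eq_mul]
      have h3 : ∑ p ∈ s, (g p : ℝ) * Real.log ((p : Nat.Primes) : ℕ) = 0 := by exact_mod_cast h2
      rw [← h3]
      exact Finset.sum_coe_sort s (fun p => (g p : ℝ) * Real.log ((p : Nat.Primes) : ℕ))
    exact Pool.Agent.H62.BF.log_primes_indep (fun p : s => ((p : Nat.Primes) : ℕ))
      (fun p => p.1.2) (fun p q hpq => Subtype.ext (Subtype.ext hpq)) (fun p => g p) h1 ⟨i, hi⟩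
  · have hpos : (0 : ℝ) < p := by exact_mod_cast hp.pos
    rw [← Complex.ofReal_exp, Real.exp_log hpos]
    have : (((p : ℕ) : ℝ) : ℂ) = (p : ℂ) := by simp
    rw [this]
    exact isAlgebraic_nat p

end Pool.Agent.H72.Old.AlmostAllTuples
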