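import Pool.Agent.H72.BF.Assemble2

/-!
# The algebraic independence measure holds for generic tuples of logarithms

Among the integer combinations of sufficiently many linearly independent logarithms of algebraic
numbers, the tuples satisfy the lower bound `H ^ (-C)` for all integer polynomials of degree at most
`d`, outside a hypersurface of explicit degree.
-/

set_option autoImplicit false

namespace Pool.Agent.Results.MP_3cf473_nt.GenericTuples

open MvPolynomial

/-- Let `lam0, mu 0, ..., mu (M-1)` be `ℚ`-linearly independent complex numbers with algebraic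
exponentials, and let `(n + d).choose d ≤ M + 1`.  There is `C > 0` such that for every real
`H ≥ 2` there is a nonzero integer polynomial `Ψ` in the variables `T i j` (`i < n`, `j < M`), of
height at most `H ^ C` and homogeneous of degree `(n + 1 + d).choose (n + 2)` in the variables of
each row, such that for all integers `v i j` with `|v i j| ≤ H` and `Ψ v ≠ 0` the `n + 1` numbers
`lam0` and `∑ j, v i j * mu j` satisfy `|P| ≥ H ^ (-C)` for every nonzero integer polynomial `P` in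
`n + 1` variables of degree at most `d` and height at most `H`. -/
theorem result (n M d : ℕ) (lam0 : ℂ) (mu : Fin M → ℂ)
    (hlin : LinearIndependent ℚ (Fin.cons lam0 mu : Fin (M + 1) → ℂ))
    (h0 : IsAlgebraic ℚ (Complex.exp lam0)) (h1 : ∀ j, IsAlgebraic ℚ (Complex.exp (mu j)))
    (hM : (n + d).choose d ≤ M + 1) :
    ∃ C : ℝ, 0 < C ∧ ∀ H : ℝ, 2 ≤ H →
    ∃ Ψ : MvPolynomial (Fin n × Fin M) ℤ, Ψ ≠ 0 ∧
      (∀ i : Fin n, IsWeightedHomogeneous (fun x : Fin n × Fin M => if x.1 = i then 1 else 0) Ψ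
        ((n + 1 + d).choose (n + 2))) ∧
      (∀ m : Fin n × Fin M →₀ ℕ, |((coeff m Ψ : ℤ) : ℝ)| ≤ H ^ C) ∧
      ∀ v : Fin n → Fin M → ℤ, (∀ i j, |(v i j : ℝ)| ≤ H) →
        eval (fun x : Fin n × Fin M => v x.1 x.2) Ψ ≠ 0 →
        ∀ P : MvPolynomial (Fin (n + 1)) ℤ, P ≠ 0 → P.totalDegree ≤ d →
          (∀ m : Fin (n + 1) →₀ ℕ, |((coeff m P : ℤ) : ℝ)| ≤ H) →
          H ^ (-C) ≤ ‖aeval (Fin.cons lam0 (fun i => ∑ j, (v i j : ℂ) * mu j) :
            Fin (n + 1) → ℂ) P‖ := by
  obtain ⟨C, hC, h⟩ := Pool.Agent.H72.BF.genericTuples n M d lam0 mu hlin h0 h1 hM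
  refine ⟨C, hC, fun H hH => ?_⟩
  obtain ⟨Ψ, hΨ, hhom, hcoef, hv⟩ := h H hH
  refine ⟨Ψ, hΨ, hhom, hcoef, fun v hb hne P hP hd hc => ?_⟩
  have h2 := hv v hb hne P hP hd hc
  have hpos : (0 : ℝ) < H ^ C := Real.rpow_pos_of_pos (by linarith) C
  rw [Real.rpow_neg (by linarith)]
  calc (H ^ C)⁻¹ = (H ^ C)⁻¹ * 1 := by ring
    _ ≤ (H ^ C)⁻¹ * (H ^ C * ‖aeval (Fin.cons lam0 (fun i => ∑ j, (v i j : ℂ) * mu j) :
            Fin (n + 1) → ℂ) P‖) := by gcongr; exact h2
    _ = _ := by field_simp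

end Pool.Agent.Results.MP_3cf473_nt.GenericTuples
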